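import Pool.Agent.K3h14.FD.Stm

/-!
# Traces on subspaces which are homogeneous for a commuting operator (brick TRP of helper14)
-/

set_option autoImplicit false
set_option linter.unusedSectionVars false

open Polynomial

namespace Pool.Agent.K3h85.FD

universe w

/-- the characteristic polynomial of a matrix which is a zero of the power of an irreducible
polynomial -/
theorem charpoly_eq_pow {K : Type*} [Field K] {n : Type*} [Fintype n] [DecidableEq n]
    (M : Matrix n n K) (g : K[X]) (hg : Irreducible g) (hgm : g.Monic) (s : ℕ)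
    (h : aeval M (g ^ s) = 0) : ∃ e : ℕ, M.charpoly = g ^ e := by
  rcases isEmpty_or_nonempty n with hn | hn
  · exact ⟨0, by rw [pow_zero]; exact Matrix.det_isEmpty⟩
  let L := AlgebraicClosure K
  let f : K →+* L := algebraMap K L
  let M' : Matrix n n L := (Algebra.ofId K L).mapMatrix M
  have h1 : aeval M' ((g.map f) ^ s) = 0 := by
    rw [← Polynomial.map_pow]
    have h2 : aeval M' ((g ^ s).map f) = aeval M' (g ^ s) := Polynomial.aeval_map_algebraMap L M' _
    rw [h2]
    have h3 := Polynomial.aeval_algHom_apply (Algebra.ofId K L).mapMatrix M (g ^ s)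
    rw [h, map_zero] at h3
    exact h3
  have h2 : M'.charpoly = M.charpoly.map f := Matrix.charpoly_map M f
  have hroot : ∀ μ ∈ M'.charpoly.roots, μ ∈ (g.map f).roots := by
    intro μ hμ
    have h3 : μ ∈ spectrum L M' :=
      Matrix.mem_spectrum_of_isRoot_charpoly (Polynomial.isRoot_of_mem_roots hμ)
    have h4 : eval μ ((g.map f) ^ s) ∈ spectrum L (aeval M' ((g.map f) ^ s)) :=
      spectrum.subset_polynomial_aeval M' _ ⟨μ, h3, rfl⟩
    rw [h1, spectrum.zero_eq, Set.mem_singleton_iff, Polynomial.eval_pow] at h4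
    rw [Polynomial.mem_roots (Polynomial.map_ne_zero hg.ne_zero)]
    exact eq_zero_of_pow_eq_zero h4
  have h3 : M'.charpoly.roots ≤ ((g.map f) ^ Fintype.card n).roots := by
    classical
    rw [Multiset.le_iff_count]
    intro μ
    by_cases hμ : μ ∈ M'.charpoly.roots
    · rw [Polynomial.roots_pow, Multiset.count_nsmul]
      have h4 : 1 ≤ Multiset.count μ (g.map f).roots :=
        Multiset.one_le_count_iff_mem.mpr (hroot μ hμ)
      have h5 : Multiset.count μ M'.charpoly.roots ≤ Fintype.card n :=
        (Multiset.count_le_card _ _).trans ((Polynomial.card_roots' _).trans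
          (Matrix.charpoly_natDegree_eq_dim M').le)
      nlinarith
    · rw [Multiset.count_eq_zero_of_notMem hμ]
      exact Nat.zero_le _
  have h4 : M'.charpoly ∣ (g.map f) ^ Fintype.card n :=
    (IsAlgClosed.splits M'.charpoly).dvd_of_roots_le_roots (Matrix.charpoly_monic M').ne_zero h3
  rw [h2, ← Polynomial.map_pow, Polynomial.map_dvd_map'] at h4
  obtain ⟨i, -, hi⟩ := (dvd_prime_pow hg.prime _).mp h4
  exact ⟨i, eq_of_monic_of_associated (Matrix.charpoly_monic M) (hgm.pow i) hi⟩

theorem trace_of_pow {K W : Type*} [Field K] [AddCommGroup W] [Module K W] [Module.Finite K W]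
    (y : Module.End K W) (g : K[X]) (hg : Irreducible g) (hgm : g.Monic) (s : ℕ)
    (h : aeval y (g ^ s) = 0) :
    (g.natDegree : K) * LinearMap.trace K W y = -(g.nextCoeff * (Module.finrank K W : K)) := by
  classical
  let b := Module.finBasis K W
  let M : Matrix (Fin (Module.finrank K W)) (Fin (Module.finrank K W)) K :=
    LinearMap.toMatrixAlgEquiv b y
  have h1 : aeval M (g ^ s) = 0 := by
    have h2 := Polynomial.aeval_algHom_apply (LinearMap.toMatrixAlgEquiv b).toAlgHom y (g ^ s)
    rw [h, map_zero] at h2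
    exact h2
  obtain ⟨e, he⟩ := charpoly_eq_pow M g hg hgm s h1
  have h2 : LinearMap.trace K W y = M.trace := LinearMap.trace_eq_matrix_trace K b y
  have h3 : M.trace = -(e • g.nextCoeff) := by
    rw [Matrix.trace_eq_neg_charpoly_nextCoeff, he, hgm.nextCoeff_pow]
  have h4 : Module.finrank K W = e * g.natDegree := by
    have h5 := Matrix.charpoly_natDegree_eq_dim M
    rw [he, hgm.natDegree_pow, Fintype.card_fin] at h5
    exact h5.symm
  rw [h2, h3, h4, nsmul_eq_mul]
  push_cast
  ring

section

variable {K V : Type*} [Field K] [AddCommGroup V] [Module K V] [Module.Finite K V]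

theorem idem_apply {Q : Module.End K V} (hQ : Q * Q = Q) {x : V} (hx : x ∈ LinearMap.range Q) :
    Q x = x := by
  obtain ⟨z, rfl⟩ := hx
  exact LinearMap.congr_fun hQ z

theorem comm_range {a Q : Module.End K V} (ha : a * Q = Q * a) :
    ∀ x ∈ LinearMap.range Q, a x ∈ LinearMap.range Q := by
  rintro _ ⟨z, rfl⟩
  exact ⟨a z, (LinearMap.congr_fun ha z).symm⟩

theorem aeval_restrict {a Q : Module.End K V} (ha : a * Q = Q * a) (p : K[X])
    (x : LinearMap.range Q) :
    ((aeval (a.restrict (comm_range ha)) p x : LinearMap.range Q) : V) = aeval a p (x : V) := by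
  induction p using Polynomial.induction_on' generalizing x with
  | add p q hp hq =>
    rw [map_add, map_add, LinearMap.add_apply, LinearMap.add_apply, Submodule.coe_add, hp, hq]
  | monomial n c =>
    rw [aeval_monomial, aeval_monomial, Module.End.mul_apply, Module.End.mul_apply,
      Module.algebraMap_end_apply, Module.algebraMap_end_apply, Submodule.coe_smul]
    congr 1
    induction n generalizing x with
    | zero => rfl
    | succ n ih =>
      rw [pow_succ, pow_succ, Module.End.mul_apply, Module.End.mul_apply, ih]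
      rfl

theorem aeval_zero_iff {a Q : Module.End K V} (ha : a * Q = Q * a) (hQ : Q * Q = Q) (p : K[X]) :
    aeval (a.restrict (comm_range ha)) p = 0 ↔ aeval a p * Q = 0 := by
  constructor
  · intro h
    ext z
    have h1 := aeval_restrict ha p ⟨Q z, z, rfl⟩
    rw [h] at h1
    exact h1.symm
  · intro h
    ext x
    rw [aeval_restrict ha p x]
    have h1 := LinearMap.congr_fun h (x : V)
    rw [Module.End.mul_apply, idem_apply hQ x.2] at h1
    exact h1

theorem trace_idem {a Q : Module.End K V} (ha : a * Q = Q * a) (hQ : Q * Q = Q) (g : K[X])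
    (hg : Irreducible g) (hgm : g.Monic) (s : ℕ) (h : aeval a (g ^ s) * Q = 0) :
    (g.natDegree : K) * LinearMap.trace K V (a * Q) =
      -(g.nextCoeff * LinearMap.trace K V Q) := by
  have h1 := trace_of_pow (a.restrict (comm_range ha)) g hg hgm s
    ((aeval_zero_iff ha hQ _).mpr h)
  have h2 : LinearMap.trace K V (a * Q) =
      LinearMap.trace K (LinearMap.range Q) (a.restrict (comm_range ha)) := by
    have h3 : ∀ x, (a * Q) x ∈ LinearMap.range Q := fun x => comm_range ha _ ⟨x, rfl⟩
    rw [← LinearMap.trace_restrict_eq_of_forall_mem (LinearMap.range Q) (a * Q) h3]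
    congr 1
    ext x
    change a (Q (x : V)) = a (x : V)
    rw [idem_apply hQ x.2]
  have h3 : LinearMap.trace K V Q = (Module.finrank K (LinearMap.range Q) : K) := by
    have h4 : ∀ x, Q x ∈ LinearMap.range Q := fun x => ⟨x, rfl⟩
    rw [← LinearMap.trace_restrict_eq_of_forall_mem (LinearMap.range Q) Q h4,
      ← LinearMap.trace_one K (LinearMap.range Q)]
    congr 1
    ext x
    exact idem_apply hQ x.2
  rw [h2, h3, h1]

end

theorem t_TRP : Pool.Agent.K3h14.FD.S_TRP.{w} := by
  intro K V _ _ _ _ _ a P hP haP hid Q hQ hPQ hQP haQ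
  by_cases hP0 : P = 0
  · have hQ0 : Q = 0 := by
      rw [← hPQ, hP0, zero_mul]
    rw [hP0, hQ0]
    simp
  -- the minimal polynomial on the range of `P`
  let y : Module.End K (LinearMap.range P) := a.restrict (comm_range haP)
  have hy : ∀ p : K[X], aeval y p = 0 ↔ aeval a p * P = 0 := aeval_zero_iff haP hP
  have hint : IsIntegral K y := IsIntegral.of_finite K y
  have hm0 : minpoly K y ≠ 0 := minpoly.ne_zero hint
  have hmu : ¬ IsUnit (minpoly K y) := by
    intro hu
    apply hP0
    have h1 : aeval y (1 : K[X]) = 0 := by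
      obtain ⟨u, hu⟩ := hu
      have h2 : (1 : K[X]) = minpoly K y * ((u⁻¹ : K[X]ˣ) : K[X]) := by
        rw [← hu, Units.mul_inv]
      rw [h2, map_mul, minpoly.aeval, zero_mul]
    have h3 := (hy 1).mp h1
    rwa [map_one, one_mul] at h3
  obtain ⟨g, hgm, hg, hgd⟩ := Polynomial.exists_monic_irreducible_factor (minpoly K y) hmu
  obtain ⟨r, hmr, hgr⟩ := (FiniteMultiplicity.of_not_isUnit hg.not_isUnit
    hm0).exists_eq_pow_mul_and_not_dvd
  set s : ℕ := multiplicity g (minpoly K y) with hs
  have hs0 : s ≠ 0 := by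
    intro h0
    rw [h0, pow_zero, one_mul] at hmr
    exact hgr (hmr ▸ hgd)
  have hcop : IsCoprime (g ^ s) r := IsCoprime.pow_left
    ((Irreducible.coprime_iff_not_dvd hg).mpr hgr)
  obtain ⟨u, v, huv⟩ := hcop
  have hPa : ∀ p : K[X], aeval a p * P = P * aeval a p := by
    intro p
    induction p using Polynomial.induction_on' with
    | add p q hp hq => rw [map_add, add_mul, mul_add, hp, hq]
    | monomial n c =>
      rw [aeval_monomial]
      have h2 : Commute a P := haP
      exact (Commute.mul_left (Algebra.commutes c P) (h2.pow_left n)).eq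
  have hmul : ∀ p : K[X], (aeval a p * P) * (aeval a p * P) = aeval a (p * p) * P := by
    intro p
    rw [map_mul, mul_assoc (aeval a p) P, ← mul_assoc P (aeval a p) P, ← hPa, mul_assoc (aeval a p) P P,
      hP, mul_assoc]
  have hru : IsUnit r := by
    have h1 : aeval y (u * g ^ s * (u * g ^ s) - u * g ^ s) = 0 := by
      have h2 : u * g ^ s * (u * g ^ s) - u * g ^ s = minpoly K y * (-(u * v)) := by
        have h3 : u * g ^ s = 1 - v * r := by
          rw [← huv]
          ring
        have h4 : u * g ^ s * (u * g ^ s) - u * g ^ s = u * g ^ s * (u * g ^ s - 1) := by ring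
        rw [h4, hmr]
        nth_rewrite 2 [h3]
        ring
      rw [h2, map_mul, minpoly.aeval, zero_mul]
    have h2 := (hy _).mp h1
    rw [map_sub, sub_mul, sub_eq_zero, ← hmul] at h2
    rcases hid _ h2 with h3 | h3
    · have h4 : minpoly K y ∣ u * g ^ s := minpoly.dvd K y ((hy _).mpr h3)
      have h5 : r ∣ u * g ^ s := (Dvd.intro_left (g ^ s) hmr.symm).trans h4
      have h6 : r ∣ 1 := by
        rw [← huv]
        exact dvd_add h5 (Dvd.intro_left v rfl)
      exact isUnit_of_dvd_one h6
    · exfalso
      have h4 : aeval y (1 - u * g ^ s) = 0 := by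
        rw [hy, map_sub, sub_mul, h3, map_one, one_mul, sub_self]
      have h5 : minpoly K y ∣ 1 - u * g ^ s := minpoly.dvd K y h4
      have h6 : g ^ s ∣ 1 - u * g ^ s := (Dvd.intro r hmr.symm).trans h5
      have h7 : g ^ s ∣ 1 := by
        have h8 : (1 : K[X]) = (1 - u * g ^ s) + u * g ^ s := by ring
        rw [h8]
        exact dvd_add h6 (Dvd.intro_left u rfl)
      exact hg.not_isUnit (isUnit_of_dvd_one ((dvd_pow_self g hs0).trans h7))
  have hgs : aeval y (g ^ s) = 0 := by
    obtain ⟨r', hr'⟩ := hru
    have h1 : g ^ s = minpoly K y * ((r'⁻¹ : K[X]ˣ) : K[X]) := by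
      rw [hmr, ← hr', mul_assoc, Units.mul_inv, mul_one]
    rw [h1, map_mul, minpoly.aeval, zero_mul]
  have h1 : aeval a (g ^ s) * P = 0 := (hy _).mp hgs
  have h2 : aeval a (g ^ s) * Q = 0 := by
    rw [← hPQ, ← mul_assoc, h1, zero_mul]
  have e1 := trace_idem haP hP g hg hgm s h1
  have e2 := trace_idem haQ hQ g hg hgm s h2
  have hd : (g.natDegree : K) ≠ 0 := by
    exact_mod_cast (hg.natDegree_pos).ne'
  apply mul_left_cancel₀ hd
  linear_combination (LinearMap.trace K V P) * e2 - (LinearMap.trace K V Q) * e1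

end Pool.Agent.K3h85.FD
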